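import Pool.Agent.H97.RK.FNB
import Pool.Agent.H11.RKS.PX1
import Pool.Agent.H2.RKS.ASK
import Pool.Agent.H20.RKS.PRM
import Pool.Agent.H20.RKS.RUN
import Pool.Agent.H25.RKS.STP
import Pool.Agent.H27.RKS.NX2
import Pool.Agent.H27.RKS.TRS
import Pool.Agent.H33.RKS.FGT
import Pool.Agent.H34.RKS.PSA
import Pool.Agent.H37.RKS.CN1
import Pool.Agent.H37.RKS.TAU
import Pool.Agent.H4.RKS.MED
import Pool.Agent.H42.RKS.CLO
import Pool.Agent.H42.RKS.FIX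
import Pool.Agent.H45.RKS.BLB
import Pool.Agent.H54.RKS.PBN
import Pool.Agent.H66.RKS.PX2
import Pool.Agent.H70.RKS.CN2
import Pool.Agent.H78.RKS.NX1

/-!
Random formulas and resolution at the scale of SETH (MP_c62aed_lc): the theorem.
-/

set_option autoImplicit false

namespace Pool.Agent.H97.RK

theorem ask : T_ASK := H2.RKS.pf_ASK H42.RKS.pf_FIX H42.RKS.pf_CLO

theorem run : T_RUN :=
  H20.RKS.pf_RUN (H25.RKS.pf_STP ask) (H33.RKS.pf_FGT H42.RKS.pf_FIX H42.RKS.pf_CLO)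

theorem mainB : MainB :=
  pf_FNB run H37.RKS.pf_CN1 (H37.RKS.pf_TAU ask)
    (H4.RKS.pf_MED H42.RKS.pf_FIX H27.RKS.pf_TRS) H70.RKS.pf_CN2
    (H11.RKS.pf_PX1 H54.RKS.pf_PBN) (H66.RKS.pf_PX2 H54.RKS.pf_PBN) H34.RKS.pf_PSA
    H78.RKS.pf_NX1 H27.RKS.pf_NX2 (H20.RKS.pf_PRM H45.RKS.pf_BLB)

end Pool.Agent.H97.RK
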