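import Pool.Agent.H97.RK.DBase
import Pool.Agent.H11.RKS.PX1
import Pool.Agent.H66.RKS.PX2

/-!
Random formulas and resolution at the scale of SETH (MP_c62aed_lc): the bad formulas among those
with distinct variables in each clause.
-/

set_option autoImplicit false

namespace Pool.Agent.H97.RK

open Finset

theorem card_Om_real (n k : ℕ) : ((Om n k).card : ℝ) = 2 ^ k * (n.descFactorial k : ℝ) := by
  rw [card_Om]
  push_cast
  ring

open Classical in
theorem bndD (n k j : ℕ) (hn : 1 ≤ n) (U : Finset (Fin n)) :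
    (((Om n k).filter (Pool.Agent.H11.RKS.pU j U)).card : ℝ) ≤
      k.choose j * ((U.card : ℝ) / n) ^ j * (Om n k).card := by
  have hn' : (0 : ℝ) < n := by exact_mod_cast hn
  have h1 : (Om n k).filter (Pool.Agent.H11.RKS.pU j U) ⊆
      (powersetCard j (univ : Finset (Fin k))).biUnion fun I => cU n k U I := by
    intro g hg
    rw [mem_filter] at hg
    have hg2 : j ≤ (univ.filter fun i => (g i).1 ∈ U).card := hg.2
    obtain ⟨I, hI, hc⟩ := exists_subset_card_eq hg2
    rw [mem_biUnion]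
    refine ⟨I, mem_powersetCard.mpr ⟨subset_univ _, hc⟩, ?_⟩
    rw [mem_cU]
    exact ⟨mem_Om.1 hg.1, fun i hi => (mem_filter.mp (hI hi)).2⟩
  have h2 : ∀ I ∈ powersetCard j (univ : Finset (Fin k)),
      ((cU n k U I).card : ℝ) ≤ ((U.card : ℝ) / n) ^ j * (Om n k).card := by
    intro I hI
    have hc := (mem_powersetCard.mp hI).2
    have h3 := card_cU (n := n) (k := k) U I
    rw [hc] at h3
    have h4 : ((cU n k U I).card : ℝ) * (n : ℝ) ^ j ≤ (Om n k).card * (U.card : ℝ) ^ j := by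
      exact_mod_cast h3
    rw [div_pow, div_mul_eq_mul_div, le_div_iff₀ (by positivity)]
    linarith
  calc (((Om n k).filter (Pool.Agent.H11.RKS.pU j U)).card : ℝ)
      ≤ (((powersetCard j (univ : Finset (Fin k))).biUnion fun I => cU n k U I).card : ℝ) := by
        exact_mod_cast card_le_card h1
    _ ≤ ∑ I ∈ powersetCard j (univ : Finset (Fin k)), ((cU n k U I).card : ℝ) := by
        exact_mod_cast card_biUnion_le
    _ ≤ ∑ _I ∈ powersetCard j (univ : Finset (Fin k)),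
        ((U.card : ℝ) / n) ^ j * (Om n k).card := sum_le_sum h2
    _ = _ := by
        rw [sum_const, card_powersetCard, card_univ, Fintype.card_fin, nsmul_eq_mul]
        ring

theorem Dist_iff {n k m : ℕ} (F : Fml n k m) : Dist F ↔ ∀ c, F c ∈ Om n k :=
  forall_congr' fun _ => mem_Om.symm

open Classical in
/-- (DX1) -/
theorem pf_DX1 (n k m j s₀ : ℕ) (hn : 1 ≤ n) (hk : k ≤ n) (hs : s₀ ≤ n) :
    ((univ.filter fun F : Fml n k m => Dist F ∧ ¬ X1 F j s₀).card : ℝ) ≤
      (∑ s ∈ Icc 1 s₀, (n.choose s : ℝ) * m.choose s * (k.choose j * ((s : ℝ) / n) ^ j) ^ s) *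
        ((Om n k).card : ℝ) ^ m := by
  have hn' : (0 : ℝ) < n := by exact_mod_cast hn
  have hN : (0 : ℝ) < (Om n k).card := by exact_mod_cast card_Om_pos hk
  obtain ⟨ct, hct⟩ : ∃ ct : ℕ → Finset (Fin n) → Finset (Fml n k m), ∀ s U, ct s U =
    univ.filter fun F : Fml n k m => (∀ c, F c ∈ Om n k) ∧
      s ≤ (univ.filter fun c => Pool.Agent.H11.RKS.pU j U (F c)).card := ⟨_, fun _ _ => rfl⟩
  have h1 : (univ.filter fun F : Fml n k m => Dist F ∧ ¬ X1 F j s₀) ⊆
      (Icc 1 s₀).biUnion fun s => (powersetCard s (univ : Finset (Fin n))).biUnion fun U =>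
        ct s U := by
    intro F hF
    rw [mem_filter] at hF
    have h2 := hF.2.2
    unfold X1 at h2
    push Not at h2
    obtain ⟨U, s, h3, h4, h5, h6⟩ := h2
    obtain ⟨U', hU, hc⟩ := exists_superset_card_eq h5 (by
      rw [Fintype.card_fin]
      omega)
    rw [mem_biUnion]
    refine ⟨s, mem_Icc.mpr ⟨h3, h4⟩, ?_⟩
    rw [mem_biUnion]
    refine ⟨U', mem_powersetCard.mpr ⟨subset_univ _, hc⟩, ?_⟩
    rw [hct, mem_filter]
    refine ⟨mem_univ _, (Dist_iff F).1 hF.2.1, h6.trans (card_le_card fun c hc' => ?_)⟩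
    rw [mem_filter] at hc' ⊢
    refine ⟨mem_univ _, (show j ≤ (univ.filter fun i => (F c i).1 ∈ U').card from
      (show j ≤ (univ.filter fun i => (F c i).1 ∈ U).card from hc'.2).trans
        (card_le_card fun i hi => ?_))⟩
    rw [mem_filter] at hi ⊢
    exact ⟨mem_univ _, hU hi.2⟩
  have h2 : ∀ s ∈ Icc 1 s₀, ∀ U ∈ powersetCard s (univ : Finset (Fin n)),
      ((ct s U).card : ℝ) ≤ m.choose s * (k.choose j * ((s : ℝ) / n) ^ j) ^ s *
        ((Om n k).card : ℝ) ^ m := by
    intro s _ U hU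
    have hc := (mem_powersetCard.mp hU).2
    have h3 := count_over' m s (Om n k) (Pool.Agent.H11.RKS.pU j U) (ct s U) (fun F hF => by
      rw [hct, mem_filter] at hF
      exact hF.2)
    have h4 := bndD n k j hn U
    rw [hc] at h4
    have h5 : ((ct s U).card : ℝ) * ((Om n k).card : ℝ) ^ s ≤
        m.choose s * (k.choose j * ((s : ℝ) / n) ^ j) ^ s * ((Om n k).card : ℝ) ^ m *
          ((Om n k).card : ℝ) ^ s := by
      refine h3.trans ?_
      calc _ ≤ (m.choose s : ℝ) * (k.choose j * ((s : ℝ) / n) ^ j * (Om n k).card) ^ s *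
              ((Om n k).card : ℝ) ^ m := by
              refine mul_le_mul_of_nonneg_right ?_ (by positivity)
              refine mul_le_mul_of_nonneg_left ?_ (by positivity)
              exact pow_le_pow_left₀ (by positivity) h4 s
          _ = _ := by
              rw [mul_pow]
              ring
    exact le_of_mul_le_mul_right h5 (by positivity)
  calc ((univ.filter fun F : Fml n k m => Dist F ∧ ¬ X1 F j s₀).card : ℝ)
      ≤ (((Icc 1 s₀).biUnion fun s => (powersetCard s (univ : Finset (Fin n))).biUnion fun U =>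
        ct s U).card : ℝ) := by exact_mod_cast card_le_card h1
    _ ≤ ∑ s ∈ Icc 1 s₀, ∑ U ∈ powersetCard s (univ : Finset (Fin n)), ((ct s U).card : ℝ) := by
        have h3 : (((Icc 1 s₀).biUnion fun s =>
            (powersetCard s (univ : Finset (Fin n))).biUnion fun U => ct s U).card) ≤
            ∑ s ∈ Icc 1 s₀, ∑ U ∈ powersetCard s (univ : Finset (Fin n)), (ct s U).card :=
          card_biUnion_le.trans (sum_le_sum fun s _ => card_biUnion_le)
        exact_mod_cast h3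
    _ ≤ ∑ s ∈ Icc 1 s₀, ∑ U ∈ powersetCard s (univ : Finset (Fin n)),
        (m.choose s * (k.choose j * ((s : ℝ) / n) ^ j) ^ s * ((Om n k).card : ℝ) ^ m) :=
        sum_le_sum fun s hs' => sum_le_sum fun U hU => h2 s hs' U hU
    _ = _ := by
        rw [sum_mul]
        refine sum_congr rfl fun s _ => ?_
        rw [sum_const, card_powersetCard, card_univ, Fintype.card_fin, nsmul_eq_mul]
        ring

open Classical in
theorem card_clD {n k : ℕ} (y : Fin n → Bool) (T W : Finset (Fin n)) (a : ℕ)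
    (ha : T.card + 2 * W.card ≤ a) (han : a ≤ n) (hk : k ≤ n) (hn : 1 ≤ n) :
    (((Om n k).filter fun h : Fin k → Fin n × Bool => (∀ i, (h i).1 ∈ T ∪ W) ∧
      ∀ i, (h i).1 ∈ T → y (h i).1 ≠ (h i).2).card : ℝ) ≤
      ((a : ℝ) / (2 * n)) ^ k * (Om n k).card := by
  have hn' : (0 : ℝ) < n := by exact_mod_cast hn
  have h1 : ((Om n k).filter fun h : Fin k → Fin n × Bool => (∀ i, (h i).1 ∈ T ∪ W) ∧
      ∀ i, (h i).1 ∈ T → y (h i).1 ≠ (h i).2).card ≤ a.descFactorial k := by
    refine le_trans (card_le_card ?_) ((card_lits (k := k) (univ.filter fun l : Fin n × Bool =>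
      l.1 ∈ T ∪ W ∧ (l.1 ∈ T → y l.1 ≠ l.2))).trans
        (Nat.descFactorial_le k ((Pool.Agent.H66.RKS.card_lit y T W).trans ha)))
    intro g hg
    rw [mem_filter] at hg ⊢
    refine ⟨hg.1, fun i => ?_⟩
    rw [mem_filter]
    exact ⟨mem_univ _, hg.2.1 i, hg.2.2 i⟩
  have h2 := descFactorial_le han k hk
  have h3 : (a.descFactorial k : ℝ) * (n : ℝ) ^ k ≤ (a : ℝ) ^ k * n.descFactorial k := by
    exact_mod_cast h2
  have h4 : (((Om n k).filter fun h : Fin k → Fin n × Bool => (∀ i, (h i).1 ∈ T ∪ W) ∧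
      ∀ i, (h i).1 ∈ T → y (h i).1 ≠ (h i).2).card : ℝ) ≤ a.descFactorial k := by
    exact_mod_cast h1
  refine h4.trans ?_
  have h5 : ((a : ℝ) / (2 * n)) ^ k * (Om n k).card =
      (a : ℝ) ^ k * n.descFactorial k / (n : ℝ) ^ k := by
    rw [card_Om_real, div_pow, mul_pow]
    field_simp
  rw [h5, le_div_iff₀ (by positivity)]
  exact h3

open Classical in
/-- (DX2) -/
theorem pf_DX2 (n k m t d e : ℕ) (hn : 1 ≤ n) (hk : k ≤ n) (hed : e ≤ d) (hdn : d ≤ n) :
    ((univ.filter fun F : Fml n k m => Dist F ∧ ¬ X2 F t d e).card : ℝ) ≤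
      6 ^ n * m.choose t * (((n : ℝ) - d + e) / (2 * n)) ^ (k * t) *
        ((Om n k).card : ℝ) ^ m := by
  obtain ⟨N, hN⟩ : ∃ N : ℝ, N = (Om n k).card := ⟨_, rfl⟩
  rw [← hN]
  have hn0 : (0 : ℝ) < n := by exact_mod_cast hn
  have hNpos : 0 < N := by
    rw [hN]
    exact_mod_cast card_Om_pos hk
  obtain ⟨a₀, ha₀⟩ : ∃ a₀ : ℕ, a₀ = n - d + e := ⟨_, rfl⟩
  have ha₀' : (a₀ : ℝ) = (n : ℝ) - d + e := by
    rw [ha₀]
    push_cast [hdn]
    ring
  rw [← ha₀']
  have ha₀n : a₀ ≤ n := by omega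
  let T : (Fin n → Fin 3) → Finset (Fin n) := fun g => univ.filter fun u => g u = 1
  let W : (Fin n → Fin 3) → Finset (Fin n) := fun g => univ.filter fun u => g u = 2
  obtain ⟨P, hP⟩ : ∃ P : (Fin n → Bool) × (Fin n → Fin 3) → (Fin k → Fin n × Bool) → Prop,
      ∀ a h, P a h ↔
        (∀ i, (h i).1 ∈ T a.2 ∪ W a.2) ∧ ∀ i, (h i).1 ∈ T a.2 → a.1 (h i).1 ≠ (h i).2 :=
    ⟨fun a h => (∀ i, (h i).1 ∈ T a.2 ∪ W a.2) ∧ ∀ i, (h i).1 ∈ T a.2 → a.1 (h i).1 ≠ (h i).2,
      fun _ _ => Iff.rfl⟩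
  let I : Finset ((Fin n → Bool) × (Fin n → Fin 3)) :=
    univ.filter fun a => (W a.2).card ≤ e ∧ (T a.2).card + (W a.2).card + d ≤ n
  let S : (Fin n → Bool) × (Fin n → Fin 3) → Finset (Fml n k m) := fun a =>
    univ.filter fun F => (∀ c, F c ∈ Om n k) ∧ t ≤ (univ.filter fun c => P a (F c)).card
  have hsub : (univ.filter fun F : Fml n k m => Dist F ∧ ¬ X2 F t d e) ⊆ I.biUnion S := by
    intro F hF
    rw [mem_filter] at hF
    have hX := hF.2.2
    unfold X2 at hX
    push Not at hX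
    obtain ⟨y, T0, W0, hdis, hWe, hTW, ht⟩ := hX
    let g : Fin n → Fin 3 := fun u => if u ∈ T0 then 1 else if u ∈ W0 then 2 else 0
    have hT : T g = T0 := by
      ext u
      simp only [T, g, mem_filter, mem_univ, true_and]
      by_cases h1 : u ∈ T0
      · simp [h1]
      · by_cases h2 : u ∈ W0 <;> simp [h1, h2]
    have hW : W g = W0 := by
      ext u
      simp only [W, g, mem_filter, mem_univ, true_and]
      by_cases h1 : u ∈ T0
      · have h2 : u ∉ W0 := fun h2 => (disjoint_left.1 hdis h1) h2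
        simp [h1, h2]
      · by_cases h2 : u ∈ W0 <;> simp [h1, h2]
    rw [mem_biUnion]
    refine ⟨(y, g), ?_, ?_⟩
    · rw [mem_filter]
      refine ⟨mem_univ _, ?_, ?_⟩
      · rw [hW]; exact hWe
      · rw [hW, hT]; exact hTW
    · rw [mem_filter]
      refine ⟨mem_univ _, (Dist_iff F).1 hF.2.1, ht.trans (card_le_card ?_)⟩
      intro c hc
      rw [mem_filter] at hc ⊢
      refine ⟨mem_univ _, (hP _ _).2 ⟨?_, ?_⟩⟩
      · change ∀ i, (F c i).1 ∈ T g ∪ W g
        rw [hT, hW]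
        exact hc.2.1
      · change ∀ i, (F c i).1 ∈ T g → y (F c i).1 ≠ (F c i).2
        rw [hT]
        exact hc.2.2
  have hb : ∀ a ∈ I, ((S a).card : ℝ) ≤
      m.choose t * ((a₀ : ℝ) / (2 * n)) ^ (k * t) * N ^ m := by
    intro a ha
    have ha' := (mem_filter.1 ha).2
    have h1 : ((S a).card : ℝ) * N ^ t ≤
        m.choose t * (((Om n k).filter (P a)).card : ℝ) ^ t * N ^ m := by
      rw [hN]
      exact count_over' m t (Om n k) (P a) (S a) (fun F hF => (mem_filter.1 hF).2)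
    have h2 : (((Om n k).filter (P a)).card : ℝ) ≤ ((a₀ : ℝ) / (2 * n)) ^ k * N := by
      rw [hN]
      refine le_trans ?_ (card_clD a.1 (T a.2) (W a.2) a₀ (by omega) ha₀n hk hn)
      have h3 : (Om n k).filter (P a) ⊆ (Om n k).filter fun h : Fin k → Fin n × Bool =>
          (∀ i, (h i).1 ∈ T a.2 ∪ W a.2) ∧ ∀ i, (h i).1 ∈ T a.2 → a.1 (h i).1 ≠ (h i).2 := by
        intro h hh
        rw [mem_filter] at hh ⊢
        exact ⟨hh.1, (hP _ _).1 hh.2⟩
      exact_mod_cast card_le_card h3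
    have h4 : ((S a).card : ℝ) * N ^ t ≤
        (m.choose t * ((a₀ : ℝ) / (2 * n)) ^ (k * t) * N ^ m) * N ^ t := by
      calc ((S a).card : ℝ) * N ^ t
          ≤ m.choose t * (((Om n k).filter (P a)).card : ℝ) ^ t * N ^ m := h1
        _ ≤ m.choose t * (((a₀ : ℝ) / (2 * n)) ^ k * N) ^ t * N ^ m := by
            gcongr
        _ = (m.choose t * ((a₀ : ℝ) / (2 * n)) ^ (k * t) * N ^ m) * N ^ t := by
            rw [mul_pow, ← pow_mul]; ring
    exact le_of_mul_le_mul_right h4 (by positivity)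
  have hI : (I.card : ℝ) ≤ 6 ^ n := by
    have h1 : I.card ≤ Fintype.card ((Fin n → Bool) × (Fin n → Fin 3)) := card_le_univ _
    rw [Fintype.card_prod, Fintype.card_fun, Fintype.card_fun, Fintype.card_bool,
      Fintype.card_fin, Fintype.card_fin, ← mul_pow] at h1
    exact_mod_cast h1
  calc ((univ.filter fun F : Fml n k m => Dist F ∧ ¬ X2 F t d e).card : ℝ)
      ≤ ((I.biUnion S).card : ℝ) := by exact_mod_cast card_le_card hsub
    _ ≤ ((∑ a ∈ I, (S a).card : ℕ) : ℝ) := by exact_mod_cast card_biUnion_le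
    _ = ∑ a ∈ I, ((S a).card : ℝ) := by push_cast; rfl
    _ ≤ ∑ _a ∈ I, m.choose t * ((a₀ : ℝ) / (2 * n)) ^ (k * t) * N ^ m := sum_le_sum hb
    _ = I.card * (m.choose t * ((a₀ : ℝ) / (2 * n)) ^ (k * t) * N ^ m) := by
        rw [sum_const, nsmul_eq_mul]
    _ ≤ 6 ^ n * (m.choose t * ((a₀ : ℝ) / (2 * n)) ^ (k * t) * N ^ m) := by
        gcongr
    _ = 6 ^ n * m.choose t * ((a₀ : ℝ) / (2 * n)) ^ (k * t) * N ^ m := by ring

open Classical in
/-- (DSA) -/
theorem pf_DSA (n k m : ℕ) :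
    ((univ.filter fun F : Fml n k m => Dist F ∧ ¬ ∀ z, ∃ c, Falsified (cls F c) z).card : ℝ) ≤
      2 ^ n * (1 - (1 / 2 : ℝ) ^ k) ^ m * ((Om n k).card : ℝ) ^ m := by
  have h1 : (univ.filter fun F : Fml n k m => Dist F ∧ ¬ ∀ z, ∃ c, Falsified (cls F c) z) ⊆
      univ.biUnion fun z : Fin n → Bool => Fintype.piFinset fun _ : Fin m =>
        (Om n k).filter fun g : Fin k → Fin n × Bool => ¬ ∀ i, z (g i).1 ≠ (g i).2 := by
    intro F hF
    rw [mem_filter] at hF
    have h := hF.2.2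
    rw [not_forall] at h
    obtain ⟨z, hz⟩ := h
    rw [mem_biUnion]
    refine ⟨z, mem_univ _, ?_⟩
    rw [Fintype.mem_piFinset]
    intro c
    rw [mem_filter]
    refine ⟨(Dist_iff F).1 hF.2.1 c, ?_⟩
    intro hc
    apply hz
    refine ⟨c, ?_⟩
    intro l hl
    unfold cls at hl
    rw [mem_image] at hl
    obtain ⟨i, _, rfl⟩ := hl
    exact hc i
  have h2 : ((univ.filter fun F : Fml n k m =>
      Dist F ∧ ¬ ∀ z, ∃ c, Falsified (cls F c) z).card : ℝ) ≤
      ∑ z : Fin n → Bool, ((Fintype.piFinset fun _ : Fin m =>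
        (Om n k).filter fun g : Fin k → Fin n × Bool =>
          ¬ ∀ i, z (g i).1 ≠ (g i).2).card : ℝ) := by
    exact_mod_cast (card_le_card h1).trans card_biUnion_le
  refine h2.trans ?_
  have h3 : ∀ z : Fin n → Bool, ((Fintype.piFinset fun _ : Fin m =>
        (Om n k).filter fun g : Fin k → Fin n × Bool => ¬ ∀ i, z (g i).1 ≠ (g i).2).card : ℝ) ≤
      ((1 - (1 / 2 : ℝ) ^ k) * (Om n k).card) ^ m := by
    intro z
    rw [Fintype.card_piFinset_const, Nat.cast_pow]
    refine pow_le_pow_left₀ (Nat.cast_nonneg _) ?_ m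
    have h4 := card_filter_add_card_filter_not (s := Om n k)
      (fun g : Fin k → Fin n × Bool => ∀ i, z (g i).1 ≠ (g i).2)
    have h5 := card_false (n := n) (k := k) z
    have h6 : (((Om n k).filter fun g : Fin k → Fin n × Bool =>
        ∀ i, z (g i).1 ≠ (g i).2).card : ℝ) + (((Om n k).filter fun g : Fin k → Fin n × Bool =>
        ¬ ∀ i, z (g i).1 ≠ (g i).2).card : ℝ) = (Om n k).card := by
      exact_mod_cast h4
    have h7 : (n.descFactorial k : ℝ) ≤ (((Om n k).filter fun g : Fin k → Fin n × Bool =>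
        ∀ i, z (g i).1 ≠ (g i).2).card : ℝ) := by
      exact_mod_cast h5
    have h8 : (1 / 2 : ℝ) ^ k * (Om n k).card = n.descFactorial k := by
      rw [card_Om_real, one_div, inv_pow]
      field_simp
    rw [sub_mul, one_mul, h8]
    linarith
  refine (sum_le_sum fun z _ => h3 z).trans (le_of_eq ?_)
  rw [sum_const, card_univ, Fintype.card_fun, Fintype.card_fin,
    Fintype.card_bool, nsmul_eq_mul, mul_pow]
  push_cast
  ring

end Pool.Agent.H97.RK
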