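import Pool.Agent.H97.RK.Stmt

/-!
Random formulas and resolution at the scale of SETH (MP_c62aed_lc): auxiliary definitions and
targets.
-/

set_option autoImplicit false

namespace Pool.Agent.H97.RK

open Finset

section

variable {n k m : ℕ}

/-- number of the positions of the clause `c` with a variable outside `A` -/
def out (F : Fml n k m) (c : Fin m) (A : Finset (Fin n)) : ℕ :=
  (univ.filter fun i => (F c i).1 ∉ A).card

/-- number of the positions of the clause `c` with a variable in `U` -/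
def inn (F : Fml n k m) (c : Fin m) (U : Finset (Fin n)) : ℕ :=
  (univ.filter fun i => (F c i).1 ∈ U).card

/-- no literal of the clause `c` with a variable in `A` is true under `y` -/
def Al (F : Fml n k m) (y : Fin n → Bool) (A : Finset (Fin n)) (c : Fin m) : Prop :=
  ∀ i, (F c i).1 ∈ A → y (F c i).1 ≠ (F c i).2

/-- some literal of the clause `c` with a variable in `B` is true under `y` -/
def Sa (F : Fml n k m) (y : Fin n → Bool) (B : Finset (Fin n)) (c : Fin m) : Prop :=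
  ∃ i, (F c i).1 ∈ B ∧ y (F c i).1 = (F c i).2

/-- the variables of a clause -/
def vs (C : Clause n) : Finset (Fin n) := C.image Prod.fst

/-- number of the variables at which `y` and `x` differ -/
def dst (y x : Fin n → Bool) : ℕ := (univ.filter fun u => y u ≠ x u).card

/-- volume of the Hamming ball -/
def bl (n a : ℕ) : ℕ := ∑ i ∈ range (a + 1), n.choose i

/-- sparsity: `s` clauses with at least `j` positions in `U` need `U.card > s` -/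
def X1 (F : Fml n k m) (j s₀ : ℕ) : Prop :=
  ∀ (U : Finset (Fin n)) (s : ℕ), 1 ≤ s → s ≤ s₀ → U.card ≤ s →
    (univ.filter fun c => j ≤ inn F c U).card < s

open Classical in
/-- few clauses lie in `T ∪ W` and are false on `T` -/
def X2 (F : Fml n k m) (t d e : ℕ) : Prop :=
  ∀ (y : Fin n → Bool) (T W : Finset (Fin n)), Disjoint T W → W.card ≤ e →
    T.card + W.card + d ≤ n →
    (univ.filter fun c => (∀ i, (F c i).1 ∈ T ∪ W) ∧ Al F y T c).card < t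

/-- the parameters -/
structure Par (F : Fml n k m) (j t d e s₀ : ℕ) : Prop where
  x1 : X1 F j s₀
  x2 : X2 F t d e
  jk : j < k
  t1 : 1 ≤ t
  ts : 2 * t ≤ s₀
  te : 2 * t ≤ e
  je : j * t ≤ e
  ed : e ≤ d

/-- the state of the adversary: `A` is the set of the variables which have been asked, `y` the
assignment in his mind, `J` the set of the reserved clauses, `W` the set of the reserved
variables -/
structure St (F : Fml n k m) (j t : ℕ) (y : Fin n → Bool) (A W : Finset (Fin n))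
    (J : Finset (Fin m)) : Prop where
  sat : ∀ c ∈ J, Sa F y (A ∪ W) c
  mem : ∀ c ∈ J, ∀ i, (F c i).1 ∈ A ∪ W
  alv : ∀ c ∈ J, Al F y (A \ W) c
  out : ∀ c, c ∉ J → Al F y A c → j < out F c (A ∪ W)
  crd : W.card ≤ j * J.card
  lt : J.card < t

end

/-! ### The adversary -/

/-- (FIX) representatives: a set of at most `s₀` clauses is satisfied outside `B`. -/
def T_FIX : Prop :=
  ∀ (n k m : ℕ) (F : Fml n k m) (j s₀ : ℕ), X1 F j s₀ →
    ∀ (y : Fin n → Bool) (B : Finset (Fin n)) (v : Fin n) (S : Finset (Fin m)), S.card ≤ s₀ →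
    (∀ c ∈ S, j < out F c (B.erase v)) →
    ∃ y' : Fin n → Bool, (∀ u ∈ B, y' u = y u) ∧
      (∀ c ∈ S, ∃ i, (F c i).1 ∉ B ∧ y' (F c i).1 = (F c i).2) ∧ dst y' y ≤ S.card

/-- (CLO) the closure. -/
def T_CLO : Prop :=
  ∀ (n k m : ℕ) (F : Fml n k m) (j t d e : ℕ), X2 F t d e → j * t ≤ e →
    ∀ (y : Fin n → Bool) (A W : Finset (Fin n)) (J : Finset (Fin m)),
    (∀ c ∈ J, ∀ i, (F c i).1 ∈ A ∪ W) → (∀ c ∈ J, Al F y (A \ W) c) →
    W.card ≤ j * J.card → J.card < t → A.card + e + d ≤ n →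
    ∃ (W' : Finset (Fin n)) (J' : Finset (Fin m)), W ⊆ W' ∧ J ⊆ J' ∧
      (∀ c ∈ J', ∀ i, (F c i).1 ∈ A ∪ W') ∧ (∀ c ∈ J', Al F y (A \ W') c) ∧
      W'.card ≤ j * J'.card ∧ J'.card < t ∧ (∀ c ∈ J', c ∉ J → Al F y A c) ∧
      ∀ c, c ∉ J' → Al F y A c → j < out F c (A ∪ W')

/-- (ASK) one more variable is asked. -/
def T_ASK : Prop :=
  ∀ (n k m : ℕ) (F : Fml n k m) (j t d e s₀ : ℕ), Par F j t d e s₀ →
    ∀ (y : Fin n → Bool) (A W : Finset (Fin n)) (J : Finset (Fin m)) (v : Fin n),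
    St F j t y A W J → v ∉ A → A.card + 1 + e + d ≤ n →
    ∃ (y' : Fin n → Bool) (W' : Finset (Fin n)) (J' : Finset (Fin m)),
      St F j t y' (insert v A) W' J' ∧ (∀ u ∈ insert v A, y' u = y u) ∧
      dst y' y + J.card ≤ J'.card

/-- (FGT) variables are forgotten. -/
def T_FGT : Prop :=
  ∀ (n k m : ℕ) (F : Fml n k m) (j t d e s₀ : ℕ), Par F j t d e s₀ →
    ∀ (y : Fin n → Bool) (A A₀ W : Finset (Fin n)) (J : Finset (Fin m)),
    St F j t y A W J → A₀ ⊆ A → A₀.card + e + d ≤ n →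
    ∃ (y' : Fin n → Bool) (W' : Finset (Fin n)) (J' : Finset (Fin m)),
      St F j t y' A₀ W' J' ∧ (∀ u ∈ A₀, y' u = y u) ∧ dst y' y ≤ t

/-! ### Refutations in which few variables are resolved often -/

/-- (STP) one step of the path. -/
def T_STP : Prop :=
  ∀ (n k m : ℕ) (F : Fml n k m) (j t d e s₀ : ℕ), Par F j t d e s₀ →
    ∀ (S r : ℕ) (line : ℕ → Clause n) (rule : ℕ → Rule n), IsRef F S r line rule →
    ∀ (i : ℕ) (y : Fin n → Bool) (A W : Finset (Fin n)) (J : Finset (Fin m)), i < S →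
    St F j t y A W J → Falsified (line i) y → vs (line i) ⊆ A → A.card + 1 + e + d ≤ n →
    ∃ (i' : ℕ) (y' : Fin n → Bool) (A' W' : Finset (Fin n)) (J' : Finset (Fin m))
      (q : List (Fin n)), i' < i ∧ St F j t y' A' W' J' ∧ Falsified (line i') y' ∧
      vs (line i') ⊆ A' ∧ A' = A ∪ q.toFinset ∧ A'.card ≤ A.card + 1 ∧
      dst y' y + J.card ≤ J'.card ∧ ∀ l, Path rule r i l → Path rule r i' (q ++ l)

/-- (RUN) the path ends in a wide line. -/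
def T_RUN : Prop :=
  ∀ (n k m : ℕ) (F : Fml n k m) (j t d e s₀ : ℕ), Par F j t d e s₀ → 1 ≤ d →
    2 * d + e ≤ n →
    ∀ (S r : ℕ) (line : ℕ → Clause n) (rule : ℕ → Rule n), IsRef F S r line rule →
    ∀ R h : ℕ, (∀ (i : ℕ) (l : List (Fin n)), Path rule r i l →
      (univ.filter fun v => R < l.count v).card ≤ h) →
    ∀ x : Fin n → Bool, ∃ i, i < S ∧ ∃ y, Falsified (line i) y ∧
      n ≤ (vs (line i)).card + (h + 3 * d) ∧ dst y x ≤ 2 * t * (n * R / d + 1)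

/-- (CN1) counting assignments. -/
def T_CN1 : Prop :=
  ∀ (n S g q : ℕ) (line : ℕ → Clause n),
    (∀ x : Fin n → Bool, ∃ i, i < S ∧ ∃ y, Falsified (line i) y ∧
      n ≤ (vs (line i)).card + g ∧ dst y x ≤ q) →
    2 ^ n ≤ S * (2 ^ g * bl n q)

/-! ### All refutations -/

/-- (TAU) restrictions. -/
def T_TAU : Prop :=
  ∀ (n k m : ℕ) (F : Fml n k m) (j t d e s₀ : ℕ), Par F j t d e s₀ →
    ∀ (x : Fin n → Bool) (A : Finset (Fin n)), A.card + e + d ≤ n →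
    ∃ (y : Fin n → Bool) (W : Finset (Fin n)) (J : Finset (Fin m)),
      St F j t y A W J ∧ dst y x ≤ t

/-- all clauses of `J` are satisfied by some `z` which agrees with `z₀` on `T` -/
def Ok {n k m : ℕ} (F : Fml n k m) (z₀ : Fin n → Bool) (T : Finset (Fin n))
    (J : Finset (Fin m)) : Prop :=
  ∃ z : Fin n → Bool, (∀ u ∈ T, z u = z₀ u) ∧ ∀ c ∈ J, Sa F z univ c

/-- (TRS) minimally unsatisfiable sets of clauses have more clauses than variables. -/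
def T_TRS : Prop :=
  ∀ (n k m : ℕ) (F : Fml n k m) (z₀ : Fin n → Bool) (T : Finset (Fin n)) (J : Finset (Fin m)),
    ¬ Ok F z₀ T J → (∀ J' : Finset (Fin m), J' ⊂ J → Ok F z₀ T J') →
    (∀ c ∈ J, Al F z₀ T c) ∧
      ((J.biUnion fun c => univ.image fun i => (F c i).1) \ T).card < J.card

/-- (MED) a line of medium strength. -/
def T_MED : Prop :=
  ∀ (n k m : ℕ) (F : Fml n k m) (j t d e s₀ : ℕ), Par F j t d e s₀ →
    ∀ (S r : ℕ) (line : ℕ → Clause n) (rule : ℕ → Rule n), IsRef F S r line rule →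
    ∀ (y : Fin n → Bool) (A W : Finset (Fin n)) (J : Finset (Fin m)), St F j t y A W J →
    ∃ i, i < S ∧ ∃ z : Fin n → Bool, (∀ u ∈ A, z u = y u) ∧ Falsified (line i) z ∧
      n ≤ (A ∪ vs (line i)).card + (d + 2 * t)

/-- (CN2) counting restrictions. -/
def T_CN2 : Prop :=
  ∀ (n S g q a : ℕ) (line : ℕ → Clause n),
    (∀ (x : Fin n → Bool) (A : Finset (Fin n)), A.card + a ≤ n →
      ∃ i, i < S ∧ ∃ y z : Fin n → Bool, dst y x ≤ q ∧ (∀ u ∈ A, z u = y u) ∧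
        Falsified (line i) z ∧ n ≤ (A ∪ vs (line i)).card + g) →
    3 ^ n ≤ S * (2 ^ n * bl n g * bl n q) + 2 ^ n * bl n a

/-! ### Random formulas -/

open Classical in
/-- (PBN) many clauses with a rare property. -/
def T_PBN : Prop :=
  ∀ (n k m s : ℕ) (p : (Fin k → Fin n × Bool) → Prop),
    ((univ.filter fun F : Fml n k m => s ≤ (univ.filter fun c => p (F c)).card).card : ℝ) *
        ((2 * n) ^ k : ℝ) ^ s ≤
      m.choose s * ((univ.filter p).card : ℝ) ^ s * ((2 * n) ^ k : ℝ) ^ m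

open Classical in
/-- (PX1) the formulas without the property `X1`. -/
def T_PX1 : Prop :=
  ∀ (n k m j s₀ : ℕ), 1 ≤ n → s₀ ≤ n →
    ((univ.filter fun F : Fml n k m => ¬ X1 F j s₀).card : ℝ) ≤
      (∑ s ∈ Icc 1 s₀, (n.choose s : ℝ) * m.choose s * (k.choose j * ((s : ℝ) / n) ^ j) ^ s) *
        ((2 * n) ^ k : ℝ) ^ m

open Classical in
/-- (PX2) the formulas without the property `X2`. -/
def T_PX2 : Prop :=
  ∀ (n k m t d e : ℕ), 1 ≤ n → e ≤ d → d ≤ n →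
    ((univ.filter fun F : Fml n k m => ¬ X2 F t d e).card : ℝ) ≤
      6 ^ n * m.choose t * (((n : ℝ) - d + e) / (2 * n)) ^ (k * t) * ((2 * n) ^ k : ℝ) ^ m

open Classical in
/-- (PSA) the satisfiable formulas. -/
def T_PSA : Prop :=
  ∀ (n k m : ℕ), 1 ≤ n →
    ((univ.filter fun F : Fml n k m => ¬ ∀ z, ∃ c, Falsified (cls F c) z).card : ℝ) ≤
      2 ^ n * (1 - (1 / 2 : ℝ) ^ k) ^ m * ((2 * n) ^ k : ℝ) ^ m

/-! ### Numbers -/

/-- (BLB) small balls. -/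
def T_BLB : Prop :=
  ∀ ε : ℝ, 0 < ε → ∃ ξ : ℝ, 0 < ξ ∧ ∀ n a : ℕ, (a : ℝ) ≤ ξ * n →
    (bl n a : ℝ) ≤ (2 : ℝ) ^ (ε * n)

/-- (NX1) the sum in (PX1) is small. -/
def T_NX1 : Prop :=
  ∀ κ : ℝ, 0 < κ → κ ≤ 1 → ∃ σ : ℝ, 0 < σ ∧ σ ≤ 1 / 3 ∧ ∃ K : ℕ, ∀ k n m j : ℕ, K ≤ k → K ≤ n →
    m ≤ 4 ^ k * n → κ * k ≤ j → j ≤ k →
    ∑ s ∈ Icc 1 ⌊σ * n⌋₊, (n.choose s : ℝ) * m.choose s *
      (k.choose j * ((s : ℝ) / n) ^ j) ^ s ≤ 1 / (4 * n)

/-- (NX2) the bound in (PX2) is small. -/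
def T_NX2 : Prop :=
  ∀ δ : ℝ, 0 < δ → δ ≤ 1 → ∃ K : ℕ, 1 ≤ K ∧ ∀ K' k n m t d e : ℕ, K ≤ K' → K ≤ k → K ≤ n →
    (m : ℝ) ≤ (2 : ℝ) ^ ((1 + 1 / (K' : ℝ)) * k) * n → δ * n ≤ d → d ≤ n → 2 * e ≤ d →
    16 * (n : ℝ) ≤ δ * k * t →
    (6 : ℝ) ^ n * m.choose t * (((n : ℝ) - d + e) / (2 * n)) ^ (k * t) ≤ 1 / (4 * n)

/-- (NSA) almost all formulas are unsatisfiable. -/
def T_NSA : Prop :=
  ∃ K : ℕ, ∀ k n m : ℕ, K ≤ n → 2 ^ k * n ≤ m →
    (2 : ℝ) ^ n * (1 - (1 / 2 : ℝ) ^ k) ^ m ≤ 1 / (4 * n)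

/-- (PRM) the parameters. -/
def T_PRM : Prop :=
  ∀ ε : ℝ, 0 < ε → ε ≤ 1 → ∃ δ κ : ℝ, 0 < δ ∧ δ ≤ 1 ∧ 0 < κ ∧ κ ≤ 1 ∧ ∀ σ : ℝ, 0 < σ →
    ∃ K : ℕ, 1 ≤ K ∧ ∀ K' k n : ℕ, K ≤ K' → K' ≤ k → K' * k ≤ n → ∃ j t d e : ℕ,
      κ * k ≤ j ∧ j < k ∧ 1 ≤ t ∧ 2 * t ≤ ⌊σ * n⌋₊ ∧ 2 * t ≤ e ∧ j * t ≤ e ∧ 2 * e ≤ d ∧
      1 ≤ d ∧ 2 * d + e ≤ n ∧ δ * n ≤ d ∧ 16 * (n : ℝ) ≤ δ * k * t ∧
      (2 : ℝ) ^ (3 * d) * bl n (2 * t * (n * (k / K') / d + 1)) ≤ (2 : ℝ) ^ (ε * n) ∧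
      2 * (bl n (d + 2 * t) : ℝ) * bl n t ≤ (2 : ℝ) ^ (ε * n) ∧
      2 * (2 ^ n * bl n (e + d)) ≤ 3 ^ n

/-- (FIN) everything together. -/
def T_FIN : Prop :=
  T_RUN → T_CN1 → T_TAU → T_MED → T_CN2 → T_PX1 → T_PX2 → T_PSA → T_NX1 → T_NX2 → T_NSA →
    T_PRM → Main

end Pool.Agent.H97.RK
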