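import Pool.Agent.H97.RK.Stmt2
import Pool.Agent.H97.RK.Targets

/-!
Random formulas and resolution at the scale of SETH (MP_c62aed_lc): counting clauses with distinct
variables.
-/

set_option autoImplicit false

namespace Pool.Agent.H97.RK

open Finset

section

variable {n k : ℕ}

open Classical in
/-- the clauses with distinct variables -/
noncomputable def Om (n k : ℕ) : Finset (Fin k → Fin n × Bool) :=
  univ.filter fun g => Function.Injective fun i => (g i).1

theorem mem_Om {g : Fin k → Fin n × Bool} :
    g ∈ Om n k ↔ Function.Injective fun i => (g i).1 := by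
  classical
  unfold Om
  rw [mem_filter]
  exact ⟨fun h => h.2, fun h => ⟨mem_univ _, h⟩⟩

theorem card_Om (n k : ℕ) : (Om n k).card = 2 ^ k * n.descFactorial k := by
  classical
  have h1 : Fintype.card ((Fin k ↪ Fin n) × (Fin k → Bool)) = 2 ^ k * n.descFactorial k := by
    rw [Fintype.card_prod, Fintype.card_embedding_eq, Fintype.card_fun, Fintype.card_bool,
      Fintype.card_fin, Fintype.card_fin, mul_comm]
  rw [← h1, ← card_univ]
  refine (Finset.card_bij' (fun (a : (Fin k ↪ Fin n) × (Fin k → Bool)) _ =>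
    (fun i => (a.1 i, a.2 i) : Fin k → Fin n × Bool))
    (fun g hg => ((⟨fun i => (g i).1, mem_Om.1 hg⟩ : Fin k ↪ Fin n), fun i => (g i).2))
    ?_ ?_ ?_ ?_).symm
  · intro a _
    rw [mem_Om]
    exact a.1.injective
  · intro g hg
    exact mem_univ _
  · intro a _
    rfl
  · intro g hg
    rfl

theorem card_Om_pos (hk : k ≤ n) : 0 < (Om n k).card := by
  rw [card_Om]
  exact Nat.mul_pos (by positivity) (Nat.descFactorial_pos.2 hk)

/-- the clauses with literals in a set -/
theorem card_lits (L : Finset (Fin n × Bool)) [DecidablePred fun g : Fin k → Fin n × Bool =>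
    ∀ i, g i ∈ L] :
    ((Om n k).filter fun g => ∀ i, g i ∈ L).card ≤ L.card.descFactorial k := by
  classical
  have h1 : Fintype.card (Fin k ↪ L) = L.card.descFactorial k := by
    rw [Fintype.card_embedding_eq, Fintype.card_coe, Fintype.card_fin]
  rw [← h1, ← card_univ]
  have h2 : ((Om n k).filter fun g => ∀ i, g i ∈ L) ⊆
      (univ : Finset (Fin k ↪ L)).image fun e i => (e i : Fin n × Bool) := by
    intro g hg
    rw [mem_filter] at hg
    rw [mem_image]
    exact ⟨⟨fun i => ⟨g i, hg.2 i⟩, fun a b hab =>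
      mem_Om.1 hg.1 (congrArg Prod.fst (congrArg Subtype.val hab))⟩, mem_univ _, rfl⟩
  exact (card_le_card h2).trans card_image_le

/-- the clauses which are false under `z` -/
theorem card_false (z : Fin n → Bool) [DecidablePred fun g : Fin k → Fin n × Bool =>
    ∀ i, z (g i).1 ≠ (g i).2] :
    n.descFactorial k ≤ ((Om n k).filter fun g => ∀ i, z (g i).1 ≠ (g i).2).card := by
  classical
  have h1 : Fintype.card (Fin k ↪ Fin n) = n.descFactorial k := by
    rw [Fintype.card_embedding_eq, Fintype.card_fin, Fintype.card_fin]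
  rw [← h1, ← card_univ]
  refine Finset.card_le_card_of_injOn (fun e i => (e i, !(z (e i)))) ?_ ?_
  · intro e _
    rw [mem_coe, mem_filter, mem_Om]
    refine ⟨e.injective, fun i => ?_⟩
    change z (e i) ≠ !(z (e i))
    cases z (e i) <;> simp
  · intro e _ e' _ h
    ext i
    have := congrFun h i
    exact congrArg Fin.val (congrArg Prod.fst this)

open Classical in
/-- the clauses with variables in `U` at the positions in `I` -/
noncomputable def cU (n k : ℕ) (U : Finset (Fin n)) (I : Finset (Fin k)) :
    Finset (Fin k → Fin n × Bool) := (Om n k).filter fun g => ∀ i ∈ I, (g i).1 ∈ U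

theorem mem_cU {U : Finset (Fin n)} {I : Finset (Fin k)} {g : Fin k → Fin n × Bool} :
    g ∈ cU n k U I ↔ (Function.Injective fun i => (g i).1) ∧ ∀ i ∈ I, (g i).1 ∈ U := by
  classical
  unfold cU
  rw [mem_filter, mem_Om]

theorem card_cU_step (U : Finset (Fin n)) (I : Finset (Fin k)) (i₀ : Fin k) (hi : i₀ ∉ I) :
    (cU n k U (insert i₀ I)).card * n ≤ (cU n k U I).card * U.card := by
  classical
  have h1 : (cU n k U (insert i₀ I) ×ˢ (univ : Finset (Fin n))).card =
      (cU n k U (insert i₀ I)).card * n := by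
    rw [card_product, card_univ, Fintype.card_fin]
  rw [← h1, ← card_product]
  refine Finset.card_le_card_of_injOn (fun a =>
    ((fun i => (Equiv.swap (a.1 i₀).1 a.2 (a.1 i).1, (a.1 i).2) : Fin k → Fin n × Bool),
      (a.1 i₀).1)) ?_ ?_
  · rintro ⟨g, u⟩ ha
    rw [mem_coe, mem_product, mem_cU] at ha
    obtain ⟨⟨hg, hU⟩, -⟩ := ha
    change Function.Injective fun i => (g i).1 at hg
    change ∀ i ∈ insert i₀ I, (g i).1 ∈ U at hU
    rw [mem_coe, mem_product, mem_cU]
    refine ⟨⟨?_, ?_⟩, ?_⟩
    · intro i i' h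
      exact hg ((Equiv.swap (g i₀).1 u).injective h)
    · intro i hiI
      change Equiv.swap (g i₀).1 u (g i).1 ∈ U
      have hne : (g i).1 ≠ (g i₀).1 := fun h => hi ((hg h : i = i₀) ▸ hiI)
      by_cases hu : (g i).1 = u
      · rw [hu, Equiv.swap_apply_right]
        exact hU i₀ (mem_insert_self _ _)
      · rw [Equiv.swap_apply_of_ne_of_ne hne hu]
        exact hU i (mem_insert_of_mem hiI)
    · exact hU i₀ (mem_insert_self _ _)
  · rintro ⟨g, u⟩ _ ⟨g', u'⟩ _ h
    have h2 : (g i₀).1 = (g' i₀).1 := congrArg Prod.snd h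
    have h3 := congrArg Prod.fst h
    have h4 : u = u' := by
      have := congrArg Prod.fst (congrFun h3 i₀)
      change Equiv.swap (g i₀).1 u (g i₀).1 = Equiv.swap (g' i₀).1 u' (g' i₀).1 at this
      rw [Equiv.swap_apply_left, Equiv.swap_apply_left] at this
      exact this
    subst h4
    have h5 : g = g' := by
      funext i
      have h6 := congrFun h3 i
      have h7 : Equiv.swap (g i₀).1 u (g i).1 = Equiv.swap (g' i₀).1 u (g' i).1 :=
        (Prod.ext_iff.1 h6).1
      have h8 : (g i).2 = (g' i).2 := (Prod.ext_iff.1 h6).2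
      rw [h2] at h7
      exact Prod.ext ((Equiv.swap (g' i₀).1 u).injective h7) h8
    rw [h5]

theorem card_cU (U : Finset (Fin n)) (I : Finset (Fin k)) :
    (cU n k U I).card * n ^ I.card ≤ (Om n k).card * U.card ^ I.card := by
  classical
  induction I using Finset.induction_on with
  | empty =>
    rw [card_empty, pow_zero, pow_zero, mul_one, mul_one]
    exact card_le_card fun g hg => mem_Om.2 (mem_cU.1 hg).1
  | insert i I hi ih =>
    rw [card_insert_of_notMem hi, pow_succ, pow_succ]
    calc (cU n k U (insert i I)).card * (n ^ I.card * n)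
        = (cU n k U (insert i I)).card * n * n ^ I.card := by ring
      _ ≤ (cU n k U I).card * U.card * n ^ I.card := Nat.mul_le_mul_right _ (card_cU_step U I i hi)
      _ = (cU n k U I).card * n ^ I.card * U.card := by ring
      _ ≤ (Om n k).card * U.card ^ I.card * U.card := Nat.mul_le_mul_right _ ih
      _ = _ := by ring

theorem descFactorial_le {a n : ℕ} (h : a ≤ n) (k : ℕ) (hk : k ≤ n) :
    a.descFactorial k * n ^ k ≤ a ^ k * n.descFactorial k := by
  induction k with
  | zero => simp
  | succ k ih =>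
    rw [Nat.descFactorial_succ, Nat.descFactorial_succ, pow_succ, pow_succ]
    have h1 : (a - k) * n ≤ a * (n - k) := by
      rcases le_total a k with h2 | h2
      · rw [Nat.sub_eq_zero_of_le h2, zero_mul]
        exact Nat.zero_le _
      · zify [h2, (Nat.le_of_succ_le hk : k ≤ n)]
        nlinarith
    calc (a - k) * a.descFactorial k * (n ^ k * n)
        = (a.descFactorial k * n ^ k) * ((a - k) * n) := by ring
      _ ≤ (a ^ k * n.descFactorial k) * (a * (n - k)) :=
        Nat.mul_le_mul (ih (Nat.le_of_succ_le hk)) h1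
      _ = a ^ k * a * ((n - k) * n.descFactorial k) := by ring

end

/-! ### Formulas over a set of clauses -/

open Classical in
theorem card_over {α : Type} [Fintype α] (m : ℕ) (Ω : Finset α) (p : α → Prop)
    (S : Finset (Fin m)) :
    (univ.filter fun F : Fin m → α => (∀ c, F c ∈ Ω) ∧ ∀ c ∈ S, p (F c)).card =
      (Ω.filter p).card ^ S.card * Ω.card ^ (m - S.card) := by
  have h1 : (univ.filter fun F : Fin m → α => (∀ c, F c ∈ Ω) ∧ ∀ c ∈ S, p (F c)) =
      Fintype.piFinset fun c => if c ∈ S then Ω.filter p else Ω := by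
    ext F
    simp only [mem_filter, mem_univ, true_and, Fintype.mem_piFinset]
    rw [← forall_and]
    refine forall_congr' fun c => ?_
    by_cases hc : c ∈ S
    · simp [hc]
    · simp [hc]
  rw [h1, Fintype.card_piFinset]
  have h2 : ∀ c : Fin m, (if c ∈ S then Ω.filter p else Ω).card =
      if c ∈ S then (Ω.filter p).card else Ω.card := by
    intro c
    split_ifs <;> rfl
  simp_rw [h2]
  rw [prod_ite, prod_const, prod_const]
  have h3 : (univ.filter fun c => c ∈ S) = S := by
    ext c
    simp
  have h4 : (univ.filter fun c => c ∉ S) = Sᶜ := by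
    ext c
    simp
  rw [h3, h4, card_compl, Fintype.card_fin]

open Classical in
theorem count_over {α : Type} [Fintype α] (m s : ℕ) (Ω : Finset α) (p : α → Prop) :
    ((univ.filter fun F : Fin m → α => (∀ c, F c ∈ Ω) ∧
      s ≤ (univ.filter fun c => p (F c)).card).card : ℝ) * (Ω.card : ℝ) ^ s ≤
      m.choose s * ((Ω.filter p).card : ℝ) ^ s * (Ω.card : ℝ) ^ m := by
  rcases lt_or_ge m s with hs | hs
  · have h1 : (univ.filter fun F : Fin m → α => (∀ c, F c ∈ Ω) ∧
        s ≤ (univ.filter fun c => p (F c)).card) = ∅ := by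
      refine filter_eq_empty_iff.2 fun F _ h => ?_
      have h2 := card_le_univ (univ.filter fun c => p (F c))
      rw [Fintype.card_fin] at h2
      have := h.2
      omega
    rw [h1, card_empty, Nat.cast_zero, zero_mul]
    positivity
  · have h1 : (univ.filter fun F : Fin m → α => (∀ c, F c ∈ Ω) ∧
        s ≤ (univ.filter fun c => p (F c)).card) ⊆
        (powersetCard s (univ : Finset (Fin m))).biUnion fun S =>
          univ.filter fun F : Fin m → α => (∀ c, F c ∈ Ω) ∧ ∀ c ∈ S, p (F c) := by
      intro F hF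
      rw [mem_filter] at hF
      obtain ⟨S, hS, hS'⟩ := exists_subset_card_eq hF.2.2
      rw [mem_biUnion]
      refine ⟨S, mem_powersetCard.2 ⟨subset_univ _, hS'⟩, ?_⟩
      rw [mem_filter]
      exact ⟨mem_univ _, hF.2.1, fun c hc => (mem_filter.1 (hS hc)).2⟩
    have h2 : ∀ S ∈ powersetCard s (univ : Finset (Fin m)),
        (univ.filter fun F : Fin m → α => (∀ c, F c ∈ Ω) ∧ ∀ c ∈ S, p (F c)).card =
          (Ω.filter p).card ^ s * Ω.card ^ (m - s) := by
      intro S hS
      rw [card_over, (mem_powersetCard.1 hS).2]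
    have h3 : (univ.filter fun F : Fin m → α => (∀ c, F c ∈ Ω) ∧
        s ≤ (univ.filter fun c => p (F c)).card).card ≤
        m.choose s * ((Ω.filter p).card ^ s * Ω.card ^ (m - s)) := by
      refine (card_le_card h1).trans (card_biUnion_le.trans (le_of_eq ?_))
      rw [sum_congr rfl h2, sum_const, card_powersetCard, card_univ, Fintype.card_fin,
        smul_eq_mul]
    have h4 : ((univ.filter fun F : Fin m → α => (∀ c, F c ∈ Ω) ∧
        s ≤ (univ.filter fun c => p (F c)).card).card : ℝ) ≤
        m.choose s * (((Ω.filter p).card : ℝ) ^ s * (Ω.card : ℝ) ^ (m - s)) := by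
      exact_mod_cast h3
    refine (mul_le_mul_of_nonneg_right h4 (by positivity)).trans (le_of_eq ?_)
    have h5 : (Ω.card : ℝ) ^ m = (Ω.card : ℝ) ^ (m - s) * (Ω.card : ℝ) ^ s := by
      rw [← pow_add, Nat.sub_add_cancel hs]
    rw [h5]
    ring

open Classical in
theorem count_over' {α : Type} [Fintype α] (m s : ℕ) (Ω : Finset α) (p : α → Prop)
    (S : Finset (Fin m → α)) (hS : ∀ F ∈ S, (∀ c, F c ∈ Ω) ∧
      s ≤ (univ.filter fun c => p (F c)).card) :
    (S.card : ℝ) * (Ω.card : ℝ) ^ s ≤
      m.choose s * ((Ω.filter p).card : ℝ) ^ s * (Ω.card : ℝ) ^ m := by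
  refine le_trans (mul_le_mul_of_nonneg_right ?_ (by positivity)) (count_over m s Ω p)
  have h : S ⊆ univ.filter fun F : Fin m → α => (∀ c, F c ∈ Ω) ∧
      s ≤ (univ.filter fun c => p (F c)).card := fun F hF => mem_filter.2 ⟨mem_univ _, hS F hF⟩
  exact_mod_cast card_le_card h

end Pool.Agent.H97.RK
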