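import Mathlib

/-!
Random formulas and resolution at the scale of SETH (MP_c62aed_lc): almost all formulas above the
threshold are unsatisfiable.
-/

set_option autoImplicit false

namespace Pool.Agent.H97.RK

theorem pf_NSB (ε : ℝ) (hε : 0 < ε) : ∃ K : ℕ, 1 ≤ K ∧ ∀ k n m : ℕ, K ≤ n →
    (Real.log 2 + ε) * 2 ^ k * n ≤ m →
    (2 : ℝ) ^ n * (1 - (1 / 2 : ℝ) ^ k) ^ m ≤ 1 / (4 * n) := by
  obtain ⟨K, hK⟩ := exists_nat_ge (8 / ε ^ 2)
  refine ⟨max K 1, le_max_right _ _, fun k n m hn hm => ?_⟩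
  have hn1 : (1 : ℝ) ≤ n := by exact_mod_cast (le_max_right K 1).trans hn
  have hnK : 8 / ε ^ 2 ≤ n := hK.trans (by exact_mod_cast (le_max_left K 1).trans hn)
  have h1 : (1 - (1 / 2 : ℝ) ^ k) ^ m ≤ Real.exp (-((1 / 2 : ℝ) ^ k * m)) := by
    have h2 : 1 - (1 / 2 : ℝ) ^ k ≤ Real.exp (-((1 / 2 : ℝ) ^ k)) :=
      Real.one_sub_le_exp_neg _
    have h3 : 0 ≤ 1 - (1 / 2 : ℝ) ^ k := sub_nonneg.2 (pow_le_one₀ (by norm_num) (by norm_num))
    calc (1 - (1 / 2 : ℝ) ^ k) ^ m ≤ Real.exp (-((1 / 2 : ℝ) ^ k)) ^ m :=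
          pow_le_pow_left₀ h3 h2 m
      _ = Real.exp (-((1 / 2 : ℝ) ^ k * m)) := by
          rw [← Real.exp_nat_mul]
          congr 1
          ring
  have h4 : (Real.log 2 + ε) * n ≤ (1 / 2 : ℝ) ^ k * m := by
    have h5 : (1 / 2 : ℝ) ^ k * ((Real.log 2 + ε) * 2 ^ k * n) = (Real.log 2 + ε) * n := by
      have : (1 / 2 : ℝ) ^ k * 2 ^ k = 1 := by rw [← mul_pow]; norm_num
      linear_combination (Real.log 2 + ε) * n * this
    rw [← h5]
    exact mul_le_mul_of_nonneg_left hm (by positivity)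
  have h6 : (2 : ℝ) ^ n = Real.exp (n * Real.log 2) := by
    rw [Real.exp_nat_mul, Real.exp_log (by norm_num)]
  have h7 : (2 : ℝ) ^ n * (1 - (1 / 2 : ℝ) ^ k) ^ m ≤ Real.exp (-(ε * n)) := by
    calc (2 : ℝ) ^ n * (1 - (1 / 2 : ℝ) ^ k) ^ m
        ≤ Real.exp (n * Real.log 2) * Real.exp (-((1 / 2 : ℝ) ^ k * m)) := by
          rw [h6]
          exact mul_le_mul_of_nonneg_left h1 (Real.exp_pos _).le
      _ = Real.exp (n * Real.log 2 - (1 / 2 : ℝ) ^ k * m) := by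
          rw [← Real.exp_add]
          congr 1
      _ ≤ Real.exp (-(ε * n)) := Real.exp_le_exp.2 (by linarith)
  refine h7.trans ?_
  rw [Real.exp_neg, ← one_div]
  refine one_div_le_one_div_of_le (by positivity) ?_
  have h8 : (ε * n) ^ 2 / 2 ≤ Real.exp (ε * n) := by
    have h9 := Real.quadratic_le_exp_of_nonneg (x := ε * n) (by positivity)
    have : 0 ≤ ε * n := by positivity
    linarith
  refine le_trans ?_ h8
  have h10 : 8 ≤ ε ^ 2 * n := by
    rw [div_le_iff₀ (by positivity)] at hnK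
    linarith
  nlinarith

end Pool.Agent.H97.RK
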