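import Pool.Agent.H97.RK.Final
import Pool.Agent.H97.RK.NSB
import Pool.Agent.H97.RK.DX

/-!
Random formulas and resolution at the scale of SETH (MP_c62aed_lc): everything together.
-/

set_option autoImplicit false

namespace Pool.Agent.H97.RK

open Finset

theorem tradeoff_of (hRUN : T_RUN) (hCN1 : T_CN1) {n k m : ℕ} (F : Fml n k m) (ε : ℝ) (K : ℕ)
    (hK : 1 ≤ K) (j t d e s₀ : ℕ) (hP : Par F j t d e s₀) (hd : 1 ≤ d) (hde : 2 * d + e ≤ n)
    (hA : (2 : ℝ) ^ (3 * d) * bl n (2 * t * (n * (k / K) / d + 1)) ≤ (2 : ℝ) ^ (ε * n))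
    (S r : ℕ) (line : ℕ → Clause n) (rule : ℕ → Rule n) (href : IsRef F S r line rule)
    (ρ : ℝ) (hρ : ∀ (i : ℕ) (l : List (Fin n)), Path rule r i l →
      ((univ.filter fun v => k < K * l.count v).card : ℝ) ≤ ρ * n) :
    (2 : ℝ) ^ ((1 - ρ - ε) * n) ≤ S := by
  have hρ0 : 0 ≤ ρ * n := le_trans (Nat.cast_nonneg _) (hρ r [] Path.refl)
  have h1 : ∀ (i : ℕ) (l : List (Fin n)), Path rule r i l →
      (univ.filter fun v => k / K < l.count v).card ≤ ⌊ρ * n⌋₊ := by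
    intro i l hl
    refine Nat.le_floor ?_
    refine le_trans (le_of_eq ?_) (hρ i l hl)
    congr 2
    ext v
    rw [mem_filter, mem_filter, Nat.div_lt_iff_lt_mul (by omega), mul_comm]
  have h2 := hCN1 n S (⌊ρ * n⌋₊ + 3 * d) (2 * t * (n * (k / K) / d + 1)) line
    (hRUN n k m F j t d e s₀ hP hd hde S r line rule href (k / K) ⌊ρ * n⌋₊ h1)
  have h3 : (2 : ℝ) ^ n ≤ S * ((2 : ℝ) ^ (⌊ρ * n⌋₊ + 3 * d) *
      bl n (2 * t * (n * (k / K) / d + 1))) := by exact_mod_cast h2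
  have h4 : (2 : ℝ) ^ (⌊ρ * n⌋₊) ≤ (2 : ℝ) ^ (ρ * n) := by
    rw [← Real.rpow_natCast]
    exact Real.rpow_le_rpow_of_exponent_le (by norm_num) (Nat.floor_le hρ0)
  have h5 : (2 : ℝ) ^ n ≤ S * ((2 : ℝ) ^ (ρ * n) * (2 : ℝ) ^ (ε * n)) := by
    refine h3.trans ?_
    rw [pow_add, mul_assoc]
    refine mul_le_mul_of_nonneg_left ?_ (Nat.cast_nonneg _)
    exact mul_le_mul h4 hA (by positivity) (by positivity)
  have h6 : (2 : ℝ) ^ ((1 - ρ - ε) * n) * ((2 : ℝ) ^ (ρ * n) * (2 : ℝ) ^ (ε * n)) =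
      (2 : ℝ) ^ n := by
    rw [← Real.rpow_add (by norm_num), ← Real.rpow_add (by norm_num), ← Real.rpow_natCast]
    congr 1
    ring
  rw [← h6] at h5
  exact le_of_mul_le_mul_right h5 (by positivity)

theorem general_of (hTAU : T_TAU) (hMED : T_MED) (hCN2 : T_CN2) {n k m : ℕ} (F : Fml n k m)
    (ε : ℝ) (j t d e s₀ : ℕ) (hP : Par F j t d e s₀)
    (hB : 2 * (bl n (d + 2 * t) : ℝ) * bl n t ≤ (2 : ℝ) ^ (ε * n))
    (hC : 2 * (2 ^ n * bl n (e + d)) ≤ 3 ^ n)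
    (S r : ℕ) (line : ℕ → Clause n) (rule : ℕ → Rule n) (href : IsRef F S r line rule) :
    (3 / 2 : ℝ) ^ n * (2 : ℝ) ^ (-(ε * n)) ≤ S := by
  have h1 := hCN2 n S (d + 2 * t) t (e + d) line (by
    intro x A hA
    obtain ⟨y, W, J, hS, hyx⟩ := hTAU n k m F j t d e s₀ hP x A (by omega)
    obtain ⟨i, hi, z, h1, h2, h3⟩ := hMED n k m F j t d e s₀ hP S r line rule href y A W J hS
    exact ⟨i, hi, y, z, hyx, h1, h2, h3⟩)
  have h2 : 3 ^ n ≤ S * (2 ^ n * (2 * bl n (d + 2 * t) * bl n t)) := by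
    have h3 : 2 * 3 ^ n ≤ 2 * (S * (2 ^ n * bl n (d + 2 * t) * bl n t)) + 3 ^ n := by
      calc 2 * 3 ^ n ≤ 2 * (S * (2 ^ n * bl n (d + 2 * t) * bl n t) + 2 ^ n * bl n (e + d)) :=
            Nat.mul_le_mul_left 2 h1
        _ = 2 * (S * (2 ^ n * bl n (d + 2 * t) * bl n t)) + 2 * (2 ^ n * bl n (e + d)) := by ring
        _ ≤ _ := Nat.add_le_add_left hC _
    have h4 : S * (2 ^ n * (2 * bl n (d + 2 * t) * bl n t)) =
        2 * (S * (2 ^ n * bl n (d + 2 * t) * bl n t)) := by ring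
    rw [h4]
    omega
  have h3 : (3 : ℝ) ^ n ≤ S * ((2 : ℝ) ^ n * (2 * (bl n (d + 2 * t) : ℝ) * bl n t)) := by
    exact_mod_cast h2
  have h4 : (3 : ℝ) ^ n ≤ S * ((2 : ℝ) ^ n * (2 : ℝ) ^ (ε * n)) :=
    h3.trans (mul_le_mul_of_nonneg_left (mul_le_mul_of_nonneg_left hB (by positivity))
      (Nat.cast_nonneg _))
  have h5 : (3 / 2 : ℝ) ^ n * (2 : ℝ) ^ (-(ε * n)) * ((2 : ℝ) ^ n * (2 : ℝ) ^ (ε * n)) =
      (3 : ℝ) ^ n := by
    have h6 : (2 : ℝ) ^ (-(ε * n)) * (2 : ℝ) ^ (ε * n) = 1 := by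
      rw [← Real.rpow_add (by norm_num), neg_add_cancel, Real.rpow_zero]
    have h7 : (3 / 2 : ℝ) ^ n * (2 : ℝ) ^ n = (3 : ℝ) ^ n := by
      rw [← mul_pow]
      norm_num
    calc _ = ((3 / 2 : ℝ) ^ n * (2 : ℝ) ^ n) * ((2 : ℝ) ^ (-(ε * n)) * (2 : ℝ) ^ (ε * n)) := by
          ring
      _ = (3 : ℝ) ^ n := by rw [h6, h7, mul_one]
  rw [← h5] at h4
  exact le_of_mul_le_mul_right h4 (by positivity)

theorem natcard_le {α : Type} [Fintype α] (P Q : α → Prop) {_ : DecidablePred Q}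
    (h : ∀ a, P a → Q a) : (Nat.card {a // P a} : ℝ) ≤ (univ.filter Q).card := by
  classical
  rw [Nat.card_eq_fintype_card, Fintype.card_subtype]
  refine Nat.cast_le.2 (card_le_card fun a ha => ?_)
  rw [mem_filter] at ha ⊢
  exact ⟨mem_univ _, h a ha.2⟩

theorem natcard_zero {α : Type} (P : α → Prop) (h : ∀ a, ¬ P a) :
    (Nat.card {a // P a} : ℝ) = 0 := by
  have : IsEmpty {a // P a} := ⟨fun a => h a.1 a.2⟩
  rw [Nat.card_of_isEmpty, Nat.cast_zero]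

theorem count_fin {α : Type} [Fintype α] (D H A B C : α → Prop) (n : ℕ) (hn : 1 ≤ n) (N : ℝ)
    (hN : 0 ≤ N) (h : ∀ F, D F → A F → B F → C F → H F)
    (hA : (Nat.card {F // D F ∧ ¬ A F} : ℝ) ≤ 1 / (4 * n) * N)
    (hB : (Nat.card {F // D F ∧ ¬ B F} : ℝ) ≤ 1 / (4 * n) * N)
    (hC : (Nat.card {F // D F ∧ ¬ C F} : ℝ) ≤ 1 / (4 * n) * N) :
    (n : ℝ) * Nat.card {F // D F ∧ ¬ H F} ≤ N := by
  classical
  have hn' : (0 : ℝ) < n := by exact_mod_cast hn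
  have h1 : ∀ P : α → Prop, Nat.card {F // P F} = (univ.filter P).card := fun P => by
    rw [Nat.card_eq_fintype_card, Fintype.card_subtype]
  have key : ∀ P QA QB QC : α → Prop, (∀ F, P F → QA F ∨ QB F ∨ QC F) →
      Nat.card {F // P F} ≤ Nat.card {F // QA F} + Nat.card {F // QB F} +
        Nat.card {F // QC F} := by
    intro P QA QB QC hQ
    rw [h1, h1, h1, h1]
    refine le_trans (card_le_card ?_) ((card_union_le _ _).trans
      (Nat.add_le_add_right (card_union_le _ _) _))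
    intro F hF
    rw [mem_filter] at hF
    rw [mem_union, mem_union, mem_filter, mem_filter, mem_filter]
    rcases hQ F hF.2 with h | h | h
    · exact Or.inl (Or.inl ⟨mem_univ _, h⟩)
    · exact Or.inl (Or.inr ⟨mem_univ _, h⟩)
    · exact Or.inr ⟨mem_univ _, h⟩
  have h2 := key (fun F => D F ∧ ¬ H F) (fun F => D F ∧ ¬ A F) (fun F => D F ∧ ¬ B F)
    (fun F => D F ∧ ¬ C F) (by
      intro F hF
      by_cases ha : A F
      · by_cases hb : B F
        · by_cases hc : C F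
          · exact absurd (h F hF.1 ha hb hc) hF.2
          · exact Or.inr (Or.inr ⟨hF.1, hc⟩)
        · exact Or.inr (Or.inl ⟨hF.1, hb⟩)
      · exact Or.inl ⟨hF.1, ha⟩)
  have h3 : (Nat.card {F // D F ∧ ¬ H F} : ℝ) ≤ Nat.card {F // D F ∧ ¬ A F} +
      Nat.card {F // D F ∧ ¬ B F} + Nat.card {F // D F ∧ ¬ C F} := by
    exact_mod_cast h2
  have h4 : (n : ℝ) * Nat.card {F // D F ∧ ¬ H F} ≤ n * (3 * (1 / (4 * n) * N)) :=
    mul_le_mul_of_nonneg_left (by linarith) hn'.le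
  have h5 : (n : ℝ) * (3 * (1 / (4 * n) * N)) = 3 / 4 * N := by
    field_simp
  linarith

theorem pf_FNB (hRUN : T_RUN) (hCN1 : T_CN1) (hTAU : T_TAU) (hMED : T_MED) (hCN2 : T_CN2)
    (hPX1 : T_PX1) (hPX2 : T_PX2) (hPSA : T_PSA) (hNX1 : T_NX1) (hNX2 : T_NX2) (hPRM : T_PRM) :
    MainB := by
  classical
  intro ε hε
  obtain ⟨δ, κ, hδ, hδ1, hκ, hκ1, hprm⟩ := hPRM (min ε 1) (lt_min hε one_pos) (min_le_right _ _)
  obtain ⟨σ, hσ, hσ1, K₁, hnx1⟩ := hNX1 κ hκ hκ1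
  obtain ⟨K₂, hK₂, hprm⟩ := hprm σ hσ
  obtain ⟨K₃, hK₃, hnx2⟩ := hNX2 δ hδ hδ1
  obtain ⟨K₄, hK₄, hnsb⟩ := pf_NSB ε hε
  obtain ⟨K, hKdef⟩ : ∃ K : ℕ, K = K₁ + K₂ + K₃ + K₄ := ⟨_, rfl⟩
  have hK1 : 1 ≤ K := by omega
  refine ⟨K, hK1, fun k n m hKk hKn hm => ?_⟩
  have hkn : k ≤ n := (Nat.le_mul_of_pos_left k hK1).trans hKn
  have hKn' : K ≤ n := (Nat.le_mul_of_pos_right K (by omega)).trans hKn
  have hn1 : 1 ≤ n := by omega
  have hn0 : (0 : ℝ) < n := by exact_mod_cast hn1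
  obtain ⟨j, t, d, e, hj1, hj2, ht1, hts, hte, hje, hed, hd1, hde, hdn, hkt, hA, hB, hC⟩ :=
    hprm K k n (by omega) hKk hKn
  have hs₀ : ⌊σ * n⌋₊ ≤ n := by
    refine Nat.floor_le_of_le ?_
    nlinarith
  have hA' : (2 : ℝ) ^ (3 * d) * bl n (2 * t * (n * (k / K) / d + 1)) ≤ (2 : ℝ) ^ (ε * n) :=
    hA.trans (Real.rpow_le_rpow_of_exponent_le (by norm_num)
      (mul_le_mul_of_nonneg_right (min_le_left _ _) hn0.le))
  have hB' : 2 * (bl n (d + 2 * t) : ℝ) * bl n t ≤ (2 : ℝ) ^ (ε * n) :=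
    hB.trans (Real.rpow_le_rpow_of_exponent_le (by norm_num)
      (mul_le_mul_of_nonneg_right (min_le_left _ _) hn0.le))
  have hm4 : m ≤ 4 ^ k * n := by
    have h1 : (2 : ℝ) ^ ((1 + 1 / (K : ℝ)) * k) ≤ 4 ^ k := by
      have h2 : (4 : ℝ) ^ k = (2 : ℝ) ^ ((2 : ℝ) * k) := by
        rw [Real.rpow_mul (by norm_num), Real.rpow_natCast]
        norm_num
      rw [h2]
      refine Real.rpow_le_rpow_of_exponent_le (by norm_num) ?_
      have h3 : 1 / (K : ℝ) ≤ 1 := by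
        rw [div_le_one (by exact_mod_cast hK1)]
        exact_mod_cast hK1
      have h4 : (0 : ℝ) ≤ k := Nat.cast_nonneg _
      nlinarith
    have h2 : (m : ℝ) ≤ 4 ^ k * n := hm.trans (mul_le_mul_of_nonneg_right h1 hn0.le)
    exact_mod_cast h2
  have hx1 := hnx1 k n m j (by omega) (by omega) hm4 hj1 hj2.le
  have hx2 := hnx2 K k n m t d e (by omega) (by omega) (by omega) hm hdn (by omega) hed hkt
  have hx3 := hnsb k n m (by omega)
  have hhard : ∀ F : Fml n k m, X1 F j ⌊σ * n⌋₊ → X2 F t d e →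
      ((Real.log 2 + ε) * 2 ^ k * n ≤ m → ∀ z, ∃ c, Falsified (cls F c) z) → Hd ε K F := by
    intro F h1 h2 h3
    have hP : Par F j t d e ⌊σ * n⌋₊ := ⟨h1, h2, hj2, ht1, hts, hte, hje, by omega⟩
    exact ⟨h3, tradeoff_of hRUN hCN1 F ε K hK1 j t d e _ hP hd1 hde hA',
      general_of hTAU hMED hCN2 F ε j t d e _ hP hB' hC⟩
  constructor
  · have hN : ((Nat.card (Fml n k m) : ℕ) : ℝ) = ((2 * n) ^ k : ℝ) ^ m := by
      rw [Nat.card_eq_fintype_card, Fintype.card_fun, Fintype.card_fun, Fintype.card_prod,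
        Fintype.card_fin, Fintype.card_fin, Fintype.card_fin, Fintype.card_bool]
      push_cast
      ring
    rw [hN]
    have hb : ∀ a : ℝ, ∀ b : ℝ, a ≤ b * ((2 * n) ^ k : ℝ) ^ m → b ≤ 1 / (4 * n) →
        a ≤ 1 / (4 * n) * ((2 * n) ^ k : ℝ) ^ m := fun a b h1 h2 =>
      h1.trans (mul_le_mul_of_nonneg_right h2 (by positivity))
    have h1 := count_fin (α := Fml n k m) (fun _ => True) (fun F => Hd ε K F)
      (fun F => X1 F j ⌊σ * n⌋₊) (fun F => X2 F t d e)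
      (fun F => (Real.log 2 + ε) * 2 ^ k * n ≤ m → ∀ z, ∃ c, Falsified (cls F c) z) n hn1
      (((2 * n) ^ k : ℝ) ^ m) (by positivity) (fun F _ => hhard F)
      (hb _ _ ((natcard_le _ _ fun _ h => h.2).trans (hPX1 n k m j _ hn1 hs₀)) hx1)
      (hb _ _ ((natcard_le _ _ fun _ h => h.2).trans
        (hPX2 n k m t d e hn1 (by omega) (by omega))) hx2) (by
        by_cases hmm : (Real.log 2 + ε) * 2 ^ k * n ≤ m
        · exact hb _ _ ((natcard_le _ _ fun _ h h' => h.2 fun _ => h').trans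
            (hPSA n k m hn1)) (hx3 hmm)
        · refine le_trans (le_of_eq (natcard_zero _ fun F h => h.2 fun h' => absurd h' hmm)) ?_
          positivity)
    refine le_trans (le_of_eq ?_) h1
    congr 2
    exact Nat.card_congr (Equiv.subtypeEquivRight fun F => by simp)
  · have hN : ((Nat.card {F : Fml n k m // Dist F} : ℕ) : ℝ) = ((Om n k).card : ℝ) ^ m := by
      rw [Nat.card_eq_fintype_card, Fintype.card_subtype]
      have : (univ.filter fun F : Fml n k m => Dist F) =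
          Fintype.piFinset fun _ : Fin m => Om n k := by
        ext F
        rw [mem_filter, Fintype.mem_piFinset, Dist_iff]
        simp
      rw [this, Fintype.card_piFinset_const, Nat.cast_pow]
    rw [hN]
    have hb : ∀ a : ℝ, ∀ b : ℝ, a ≤ b * ((Om n k).card : ℝ) ^ m → b ≤ 1 / (4 * n) →
        a ≤ 1 / (4 * n) * ((Om n k).card : ℝ) ^ m := fun a b h1 h2 =>
      h1.trans (mul_le_mul_of_nonneg_right h2 (by positivity))
    exact count_fin (α := Fml n k m) (fun F => Dist F) (fun F => Hd ε K F)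
      (fun F => X1 F j ⌊σ * n⌋₊) (fun F => X2 F t d e)
      (fun F => (Real.log 2 + ε) * 2 ^ k * n ≤ m → ∀ z, ∃ c, Falsified (cls F c) z) n hn1
      (((Om n k).card : ℝ) ^ m) (by positivity) (fun F _ => hhard F)
      (hb _ _ ((natcard_le _ _ fun _ h => h).trans (pf_DX1 n k m j _ hn1 hkn hs₀)) hx1)
      (hb _ _ ((natcard_le _ _ fun _ h => h).trans
        (pf_DX2 n k m t d e hn1 hkn (by omega) (by omega))) hx2) (by
        by_cases hmm : (Real.log 2 + ε) * 2 ^ k * n ≤ m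
        · exact hb _ _ ((natcard_le _ _ fun _ h => ⟨h.1, fun h' => h.2 fun _ => h'⟩).trans
            (pf_DSA n k m)) (hx3 hmm)
        · refine le_trans (le_of_eq (natcard_zero _ fun F h => h.2 fun h' => absurd h' hmm)) ?_
          positivity)

end Pool.Agent.H97.RK
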