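import Pool.Agent.H97.RK.Stmt

/-!
Random formulas and resolution at the scale of SETH (MP_c62aed_lc): clauses with distinct
variables.
-/

set_option autoImplicit false

namespace Pool.Agent.H97.RK

/-- The `k` variables of each clause are distinct. -/
def Dist {n k m : ℕ} (F : Fml n k m) : Prop :=
  ∀ c, Function.Injective fun i => (F c i).1

/-- The final statement for the formulas whose clauses have `k` distinct variables. -/
def MainDist : Prop :=
  ∀ ε : ℝ, 0 < ε → ∃ K : ℕ, 1 ≤ K ∧ ∀ k n m : ℕ, K ≤ k → K * k ≤ n → 2 ^ k * n ≤ m →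
    (m : ℝ) ≤ (2 : ℝ) ^ ((1 + 1 / (K : ℝ)) * k) * n →
    (n : ℝ) * Nat.card {F : Fml n k m // Dist F ∧ ¬ Hard ε K F} ≤
      Nat.card {F : Fml n k m // Dist F}

end Pool.Agent.H97.RK
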