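import Pool.Agent.H97.RK.Stmt2

/-!
Random formulas and resolution at the scale of SETH (MP_c62aed_lc): the final statement.
-/

set_option autoImplicit false

namespace Pool.Agent.H97.RK

open Finset

/-- `F` is unsatisfiable if it has at least `(log 2 + ε) 2 ^ k n` clauses; every resolution
refutation of `F` in which on each path at most `ρ n` variables are resolved more than `k / K`
times has at least `2 ^ ((1 - ρ - ε) n)` lines; every resolution refutation of `F` has at least
`(3 / 2) ^ n 2 ^ (- ε n)` lines. -/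
structure Hd {n k m : ℕ} (ε : ℝ) (K : ℕ) (F : Fml n k m) : Prop where
  unsat : (Real.log 2 + ε) * 2 ^ k * n ≤ m → ∀ z, ∃ c, Falsified (cls F c) z
  tradeoff : ∀ (S r : ℕ) (line : ℕ → Clause n) (rule : ℕ → Rule n), IsRef F S r line rule →
    ∀ ρ : ℝ, (∀ (i : ℕ) (l : List (Fin n)), Path rule r i l →
      ((univ.filter fun v => k < K * l.count v).card : ℝ) ≤ ρ * n) →
    (2 : ℝ) ^ ((1 - ρ - ε) * n) ≤ S
  general : ∀ (S r : ℕ) (line : ℕ → Clause n) (rule : ℕ → Rule n), IsRef F S r line rule →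
    (3 / 2 : ℝ) ^ n * (2 : ℝ) ^ (-(ε * n)) ≤ S

/-- Among the formulas with `m` clauses of `k` literals, at most the fraction `1 / n` is not hard,
and the same among the formulas with `m` clauses of `k` literals with distinct variables. -/
def MainB : Prop :=
  ∀ ε : ℝ, 0 < ε → ∃ K : ℕ, 1 ≤ K ∧ ∀ k n m : ℕ, K ≤ k → K * k ≤ n →
    (m : ℝ) ≤ (2 : ℝ) ^ ((1 + 1 / (K : ℝ)) * k) * n →
    (n : ℝ) * Nat.card {F : Fml n k m // ¬ Hd ε K F} ≤ Nat.card (Fml n k m) ∧
    (n : ℝ) * Nat.card {F : Fml n k m // Dist F ∧ ¬ Hd ε K F} ≤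
      Nat.card {F : Fml n k m // Dist F}

end Pool.Agent.H97.RK
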