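import Mathlib

/-!
Random formulas and resolution at the scale of SETH (MP_c62aed_lc): the definitions used by the
statement.
-/

set_option autoImplicit false

namespace Pool.Agent.H97.RK

open Finset

/-- A clause: a finite set of literals. The literal `(x, s)` is true when the variable `x` has the
value `s`. -/
abbrev Clause (n : ℕ) : Type := Finset (Fin n × Bool)

/-- All literals of the clause `C` are false under `z`. -/
def Falsified {n : ℕ} (C : Clause n) (z : Fin n → Bool) : Prop := ∀ l ∈ C, z l.1 ≠ l.2

/-- A formula with `m` clauses: the clause `c` consists of the `k` literals `F c i`. -/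
abbrev Fml (n k m : ℕ) : Type := Fin m → Fin k → Fin n × Bool

/-- the clause `c` of the formula `F` -/
def cls {n k m : ℕ} (F : Fml n k m) (c : Fin m) : Clause n := univ.image (F c)

/-- How a line of a resolution refutation is obtained: from a clause of the formula (`ax`), from
the line `j` (`weak j`), or from the lines `j` and `k` by resolution on the variable `x`
(`res x j k`). -/
inductive Rule (n : ℕ) : Type
  | ax : Rule n
  | weak (j : ℕ) : Rule n
  | res (x : Fin n) (j k : ℕ) : Rule n

/-- Line `i` is correct: it contains a clause of `F`, or the earlier line `j`, or the resolvent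
on `x` of the earlier lines `j` (with `x`) and `k` (with `¬x`). -/
def Correct {n k m : ℕ} (F : Fml n k m) (line : ℕ → Clause n) (i : ℕ) : Rule n → Prop
  | Rule.ax => ∃ c, cls F c ⊆ line i
  | Rule.weak j => j < i ∧ line j ⊆ line i
  | Rule.res x j k => j < i ∧ k < i ∧ line j ⊆ insert (x, true) (line i) ∧
      line k ⊆ insert (x, false) (line i)

/-- The lines `0, 1, .., S - 1` form a resolution refutation of `F` (with weakening); the line
`r` is empty. -/
def IsRef {n k m : ℕ} (F : Fml n k m) (S r : ℕ) (line : ℕ → Clause n) (rule : ℕ → Rule n) :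
    Prop :=
  r < S ∧ line r = ∅ ∧ ∀ i, i < S → Correct F line i (rule i)

/-- `Path rule r i l`: there is a path from the line `r` to the line `i` (from lines to the
lines from which they are obtained) along which the variables of the list `l` are resolved. -/
inductive Path {n : ℕ} (rule : ℕ → Rule n) (r : ℕ) : ℕ → List (Fin n) → Prop
  | refl : Path rule r r []
  | weak {i j : ℕ} {l : List (Fin n)} : Path rule r i l → rule i = Rule.weak j →
      Path rule r j l
  | left {i j k : ℕ} {x : Fin n} {l : List (Fin n)} :
      Path rule r i l → rule i = Rule.res x j k → Path rule r j (x :: l)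
  | right {i j k : ℕ} {x : Fin n} {l : List (Fin n)} :
      Path rule r i l → rule i = Rule.res x j k → Path rule r k (x :: l)

/-- `F` is unsatisfiable; every resolution refutation of `F` in which on each path at most `ρ n`
variables are resolved more than `k / K` times has at least `2 ^ ((1 - ρ - ε) n)` lines; every
resolution refutation of `F` has at least `(3 / 2) ^ n 2 ^ (- ε n)` lines. -/
structure Hard {n k m : ℕ} (ε : ℝ) (K : ℕ) (F : Fml n k m) : Prop where
  unsat : ∀ z, ∃ c, Falsified (cls F c) z
  tradeoff : ∀ (S r : ℕ) (line : ℕ → Clause n) (rule : ℕ → Rule n), IsRef F S r line rule →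
    ∀ ρ : ℝ, (∀ (i : ℕ) (l : List (Fin n)), Path rule r i l →
      ((univ.filter fun v => k < K * l.count v).card : ℝ) ≤ ρ * n) →
    (2 : ℝ) ^ ((1 - ρ - ε) * n) ≤ S
  general : ∀ (S r : ℕ) (line : ℕ → Clause n) (rule : ℕ → Rule n), IsRef F S r line rule →
    (3 / 2 : ℝ) ^ n * (2 : ℝ) ^ (-(ε * n)) ≤ S

/-- The final statement: among the formulas with `m` clauses of `k` literals, at most the fraction
`1 / n` is not hard. -/
def Main : Prop :=
  ∀ ε : ℝ, 0 < ε → ∃ K : ℕ, 1 ≤ K ∧ ∀ k n m : ℕ, K ≤ k → K * k ≤ n → 2 ^ k * n ≤ m →
    (m : ℝ) ≤ (2 : ℝ) ^ ((1 + 1 / (K : ℝ)) * k) * n →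
    (n : ℝ) * Nat.card {F : Fml n k m // ¬ Hard ε K F} ≤ Nat.card (Fml n k m)

end Pool.Agent.H97.RK
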